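import Mathlib
import Pool.Agent.H.MP_ffd784_gt.A

set_option autoImplicit false

namespace Pool.Agent.Results.MP_ffd784_gt.CH

open Set Filter Topology Cardinal Pool.Agent.H.MP_55e6a3_gt Pool.Agent.H.MP_ffd784_gt

/-- D-separable spaces. -/
def DSep (X : Type) [TopologicalSpace X] : Prop :=
  ∀ D : ℕ → Set X, (∀ n, Dense (D n)) →
    ∃ F : ℕ → Set X, (∀ n, F n ⊆ D n ∧ DiscreteTopology ↥(F n)) ∧ Dense (⋃ n, F n)

theorem cyl (X : Set (J → Bool)) (q : Finset J) : IsOpen {z : X | ↑q ⊆ sp z} := by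
  have : {z : X | ↑q ⊆ sp z} = ⋂ j ∈ q, {z : X | z.1 j = true} := by ext z; simp [sp, subset_def]
  rw [this]
  exact isOpen_biInter_finset fun j _ => ((continuous_apply (A := fun _ : J => Bool) j).comp
    continuous_subtype_val).isOpen_preimage {true} (isOpen_discrete _)

theorem loc {c : I → I → Bool} {X : Set (J → Bool)} (h : ∀ y ∈ X, ok c (sp y)) {U : Set X}
    (hU : IsOpen U) {y : X} (hy : y ∈ U) {p : Finset J} (hp : ↑p ⊆ sp y) :
    ∃ q : Finset J, ok c q ∧ p ⊆ q ∧ ∀ z : X, ↑q ⊆ sp z → z ∈ U := by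
  classical
  obtain ⟨V, hV, rfl⟩ := isOpen_induced_iff.1 hU
  obtain ⟨s, u, h1, h2⟩ := isOpen_pi_iff.1 hV y.1 hy
  obtain ⟨q, q1, q2, q3⟩ := pib (h y y.2) (s ∪ p)
  refine ⟨q, q1, fun j hj => q2 j (Finset.mem_union_right _ hj) (hp hj), fun z hz =>
    h2 fun j hj => ?_⟩
  have : z.1 j = y.1 j := Bool.eq_iff_iff.2 (q3 _ (h z z.2) hz j (Finset.mem_union_left _ hj))
  rw [this]
  exact (h1 j hj).2

theorem result (ch : continuum = (aleph 1 : Cardinal.{0})) :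
    ∃ (X : Type) (_ : TopologicalSpace X), T35Space X ∧ HereditarilyLindelofSpace X ∧
      ¬ TopologicalSpace.SeparableSpace X ∧ DSep (X × X) := by
  classical
  obtain ⟨c, X, h1, h2, h3, h4⟩ := base ch
  have h5 := fun y hy => (h2 y hy).1
  refine ⟨X, inferInstance, inferInstance, ⟨fun s _ => ?_⟩, fun h => ?_, fun D hD => ?_⟩
  · refine isLindelof_of_countable_subcover fun {ι} U hU hs => ?_
    obtain ⟨A, hA⟩ := zorn_subset {A : Set (Finset J) | (∀ p ∈ A, ok c p ∧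
        ((∃ i, ∀ z : X, ↑p ⊆ sp z → z ∈ U i) ∨ ∀ i, ∀ z ∈ U i, ¬ ↑p ⊆ sp z)) ∧
        A.Pairwise fun p q => ¬ ok c (↑p ∪ ↑q)} fun C C1 C2 =>
      ⟨⋃₀ C, ⟨fun p ⟨a, a1, a2⟩ => (C1 a1).1 p a2,
        (pairwise_sUnion C2.directedOn).2 fun a ha => (C1 ha).2⟩, fun _ => subset_sUnion_of_mem⟩
    have a1 := h1 A (fun p hp => (hA.1.1 p hp).1) hA.1.2
    have a2 : pre c A := fun p hp => by
      obtain ⟨q, q1, q2, q3⟩ : ∃ q : Finset J, ok c q ∧ p ⊆ q ∧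
          ((∃ i, ∀ z : X, ↑q ⊆ sp z → z ∈ U i) ∨ ∀ i, ∀ z ∈ U i, ¬ ↑q ⊆ sp z) := by
        by_cases h : ∀ i, ∀ z ∈ U i, ¬ ↑p ⊆ sp z
        · exact ⟨p, hp, subset_rfl, Or.inr h⟩
        push Not at h
        obtain ⟨i, z, z1, z2⟩ := h
        obtain ⟨q, q1, q2, q3⟩ := loc h5 (hU i) z1 z2
        exact ⟨q, q1, q2, Or.inl ⟨i, q3⟩⟩
      by_contra h
      push Not at h
      have h6 : ∀ a ∈ A, ¬ ok c (↑q ∪ ↑a) := fun a ha h6 =>
        h a ha (h6.mono (union_subset_union_left _ q2))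
      refine h6 q (hA.mem_of_prop_insert ⟨?_, hA.1.2.insert fun a ha _ =>
        ⟨h6 a ha, union_comm _ _ ▸ h6 a ha⟩⟩) (by simpa using q1)
      rintro a (rfl | ha)
      exacts [⟨q1, q3⟩, hA.1.1 a ha]
    choose g hg using fun z : s => mem_iUnion.1 (hs z.2)
    choose k hk using fun a : {a : Finset J | ∃ i, ∀ z : X, ↑a ⊆ sp z → z ∈ U i} => a.2
    refine ⟨g '' {z | ¬ ∃ a ∈ A, ↑a ⊆ sp z} ∪ k '' {a | a.1 ∈ A}, (Countable.image ?_ _).union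
      ((a1.preimage Subtype.val_injective).image _), fun z hz => ?_⟩
    · exact ((h4 A a1 a2).preimage (Subtype.val_injective.comp Subtype.val_injective)).mono
        (by intro z hz; exact ⟨z.1.2, hz⟩)
    by_cases h : ∃ a ∈ A, ↑a ⊆ sp z
    · obtain ⟨a, b1, b2⟩ := h
      have b3 := (hA.1.1 a b1).2.resolve_right fun h => h _ z (hg ⟨z, hz⟩) b2
      exact mem_biUnion (Or.inr ⟨⟨a, b3⟩, b1, rfl⟩) (hk ⟨a, b3⟩ z b2)
    · exact mem_biUnion (Or.inl ⟨⟨z, hz⟩, h, rfl⟩) (hg ⟨z, hz⟩)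
  · obtain ⟨s, s1, s2⟩ := TopologicalSpace.exists_countable_dense X
    obtain ⟨α, hα⟩ := bddI (s1.biUnion fun z _ => (h2 z z.2).2.image Prod.fst)
    obtain ⟨y, y1, y2⟩ := h3 {(α, 0, false)} (by simp [ok])
    obtain ⟨z, z1, z2⟩ := s2.inter_open_nonempty _ (cyl X {(α, 0, false)}) ⟨⟨y, y1⟩, y2⟩
    exact lt_irrefl α (hα α (mem_biUnion z2 ⟨(α, 0, false), z1 (by simp), rfl⟩))
  obtain ⟨e⟩ : Nonempty ((Finset J × Finset J) × ℕ ≃ I) := by
    rw [← Cardinal.eq]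
    simp [aleph0_lt_aleph_one.le]
  have h6 : ∀ r : Finset J × Finset J, ∃ m n : ℕ, ok c r.1 → ok c r.2 → ∃ d ∈ D n,
      ↑r.1 ⊆ sp d.1 ∧ ↑r.2 ⊆ sp d.2 ∧ (e (r, m), n, false) ∈ sp d.1 ∧
        (e (r, m), n, true) ∈ sp d.2 := fun r => by
    obtain ⟨_, ⟨m, rfl⟩, hm⟩ := (infinite_range_of_injective (f := fun m => e (r, m)) fun a b h =>
      congrArg Prod.snd (e.injective h)).exists_notMem_finset ((r.1 ∪ r.2).image Prod.fst)
    replace hm : ∀ j ∈ r.1 ∪ r.2, j.1 ≠ e (r, m) := fun j hj h => hm (Finset.mem_image.2 ⟨j, hj, h⟩)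
    obtain ⟨n, hn⟩ := fresh (r.1 ∪ r.2)
    refine ⟨m, n, fun r1 r2 => ?_⟩
    obtain ⟨y, y1, y2⟩ := h3 (insert (e (r, m), n, false) r.1) (by
      rw [Finset.coe_insert]
      exact ext1 r1 (fun j hj => hm j (Finset.mem_union_left _ hj))
        fun j hj => hn j (Finset.mem_union_left _ hj))
    obtain ⟨z, z1, z2⟩ := h3 (insert (e (r, m), n, true) r.2) (by
      rw [Finset.coe_insert]
      exact ext1 r2 (fun j hj => hm j (Finset.mem_union_right _ hj))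
        fun j hj => hn j (Finset.mem_union_right _ hj))
    obtain ⟨d, ⟨d1, d2⟩, d3⟩ := (hD n).inter_open_nonempty _ ((cyl X _).prod (cyl X _))
      ⟨(⟨y, y1⟩, ⟨z, z1⟩), y2, z2⟩
    rw [mem_ofPred_eq, Finset.coe_insert, insert_subset_iff] at d1 d2
    exact ⟨d, d3, d1.2, d2.2, d1.1, d2.1⟩
  choose m n h6 using h6
  choose d d1 d2 d3 d4 d5 using h6
  refine ⟨fun k => {z | ∃ r r1 r2, n r = k ∧ d r r1 r2 = z}, fun k => ⟨?_, ?_⟩,
    dense_iff_inter_open.2 fun U hU ⟨z, hz⟩ => ?_⟩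
  · rintro _ ⟨r, r1, r2, rfl, rfl⟩
    exact d1 r r1 r2
  · refine discreteTopology_iff_isOpen_singleton.2 ?_
    rintro ⟨_, r, r1, r2, rk, rfl⟩
    refine isOpen_induced_iff.2 ⟨_, (cyl X {(e (r, m r), k, false)}).prod
      (cyl X {(e (r, m r), k, true)}), eq_singleton_iff_unique_mem.2
      ⟨⟨by simpa [← rk] using d4 r r1 r2, by simpa [← rk] using d5 r r1 r2⟩, ?_⟩⟩
    rintro ⟨_, t, t1, t2, tk, rfl⟩ ⟨b1, b2⟩
    replace b1 : (e (r, m r), k, false) ∈ sp (d t t1 t2).1 := by simpa using b1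
    replace b2 : (e (r, m r), k, true) ∈ sp (d t t1 t2).2 := by simpa using b2
    have b3 := d4 t t1 t2
    have b4 := d5 t t1 t2
    rw [tk] at b3 b4
    have o1 := h5 _ (d t t1 t2).1.2
    have o2 := h5 _ (d t t1 t2).2.2
    rcases lt_trichotomy (e (r, m r)) (e (t, m t)) with h | h | h
    · exact absurd (((o1 _ b1 _ b3).2 h rfl).symm.trans ((o2 _ b2 _ b4).2 h rfl)) (by simp)
    · obtain rfl : r = t := congrArg Prod.fst (e.injective h)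
      rfl
    · exact absurd (((o1 _ b3 _ b1).2 h rfl).symm.trans ((o2 _ b4 _ b2).2 h rfl)) (by simp)
  · obtain ⟨u, v, hu, hv, u1, v1, h⟩ := isOpen_prod_iff.1 hU z.1 z.2 hz
    obtain ⟨p, p1, -, p2⟩ := loc h5 hu u1 (p := ∅) (by simp)
    obtain ⟨q, q1, -, q2⟩ := loc h5 hv v1 (p := ∅) (by simp)
    exact ⟨d (p, q) p1 q1, h ⟨p2 _ (d2 (p, q) p1 q1), q2 _ (d3 (p, q) p1 q1)⟩,
      mem_iUnion.2 ⟨_, (p, q), p1, q1, rfl, rfl⟩⟩

end Pool.Agent.Results.MP_ffd784_gt.CH
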